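import Pool.Agent.W651.HI.Asm

/-!
# MP_a1dcbe_gt: spaces with a base of closed sets separated by countable sets

Let `X` be a separable metric space with a basis of closed sets any two disjoint members of which
can be separated by a countable set (depending on the pair). Then `dim X ≤ 1`. In a locally connected
space the closures of the connected open sets form a basis of closed sets, so this covers the locally
connected separable metric spaces in which disjoint closed connected sets can be separated by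
countable sets. The proof uses the library's positive answer to the question on condition `(R₂)`
(frozen statement S12751).
-/

set_option autoImplicit false

open Set Topology TopologicalSpace

namespace Pool.Agent.Results.MP_a1dcbe_gt.CountableSeparators

/-- The subspace `X ∖ C` is not connected between `A ∖ C` and `B ∖ C`: some clopen subset of
`X ∖ C` contains `A ∖ C` and misses `B ∖ C`. -/
def SeparatedOff {X : Type} [TopologicalSpace X] (C A B : Set X) : Prop :=
  ∃ F : Set ↥(Cᶜ : Set X), IsClopen F ∧ (∀ y : ↥(Cᶜ : Set X), (y : X) ∈ A → y ∈ F) ∧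
    ∀ y ∈ F, (y : X) ∉ B

/-- A basis of closed sets: every neighbourhood of every point `p` contains a member of `𝓑` with
`p` in its interior. -/
def ClosedBasis {X : Type} [TopologicalSpace X] (𝓑 : Set (Set X)) : Prop :=
  (∀ U ∈ 𝓑, IsClosed U) ∧ ∀ (p : X), ∀ V ∈ 𝓝 p, ∃ U ∈ 𝓑, U ⊆ V ∧ p ∈ interior U

/-- Dimension at most one (small inductive dimension): every point has small open neighbourhoods
with zero-dimensional frontiers. -/
def DimLeOne (X : Type) [TopologicalSpace X] : Prop :=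
  ∀ (x : X) (V : Set X), IsOpen V → x ∈ V → ∃ U : Set X, IsOpen U ∧ x ∈ U ∧ U ⊆ V ∧
    ∀ y : ↥(frontier U), ∀ O : Set ↥(frontier U), IsOpen O → y ∈ O →
      ∃ W : Set ↥(frontier U), IsClopen W ∧ y ∈ W ∧ W ⊆ O

/-- Every basis of closed sets contains a countable one. -/
theorem exists_countable_base {X : Type} [TopologicalSpace X] [SecondCountableTopology X]
    {𝓑 : Set (Set X)} (h𝓑 : ClosedBasis 𝓑) :
    ∃ 𝒱 ⊆ 𝓑, 𝒱.Countable ∧ ClosedBasis 𝒱 := by
  classical
  have hb := isBasis_countableBasis X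
  let g : Set X × Set X → Set (Set X) := fun q =>
    if h : ∃ V, V ∈ 𝓑 ∧ q.1 ⊆ V ∧ V ⊆ q.2 then {h.choose} else ∅
  have hsub : (⋃ q ∈ (countableBasis X ×ˢ countableBasis X), g q) ⊆ 𝓑 := by
    intro V hV
    simp only [mem_iUnion] at hV
    obtain ⟨q, -, hV⟩ := hV
    simp only [g] at hV
    split_ifs at hV with h
    · rw [mem_singleton_iff] at hV
      subst hV
      exact h.choose_spec.1
    · exact hV.elim
  refine ⟨⋃ q ∈ (countableBasis X ×ˢ countableBasis X), g q, hsub, ?_,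
    fun U hU => h𝓑.1 U (hsub hU), ?_⟩
  · refine ((countable_countableBasis X).prod (countable_countableBasis X)).biUnion fun q _ => ?_
    simp only [g]
    split_ifs
    · exact countable_singleton _
    · exact countable_empty
  · intro x O hO
    obtain ⟨O', hO'O, hO', hx⟩ := mem_nhds_iff.1 hO
    obtain ⟨b2, hb2, hx2, hb2O⟩ := hb.exists_subset_of_mem_open hx hO'
    obtain ⟨V, hV𝓑, hVb, hxV⟩ := h𝓑.2 x b2 ((hb.isOpen hb2).mem_nhds hx2)
    obtain ⟨b1, hb1, hx1, hb1V⟩ := hb.exists_subset_of_mem_open hxV isOpen_interior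
    have h : ∃ V, V ∈ 𝓑 ∧ b1 ⊆ V ∧ V ⊆ b2 := ⟨V, hV𝓑, hb1V.trans interior_subset, hVb⟩
    refine ⟨h.choose, ?_, (h.choose_spec.2.2.trans hb2O).trans hO'O,
      interior_maximal h.choose_spec.2.1 (hb.isOpen hb1) hx1⟩
    simp only [mem_iUnion]
    refine ⟨(b1, b2), ⟨hb1, hb2⟩, ?_⟩
    simp only [g]
    rw [dif_pos h]
    exact mem_singleton _

/-- A cover by clopen sets each missing one of two sets gives a separation. -/
theorem separate {Y : Type} [TopologicalSpace Y] [SecondCountableTopology Y] (U W : Set Y)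
    (h : ∀ y : Y, ∃ F : Set Y, IsClopen F ∧ y ∈ F ∧ (Disjoint F U ∨ Disjoint F W)) :
    ∃ F : Set Y, IsClopen F ∧ U ⊆ F ∧ Disjoint F W := by
  classical
  choose F hF hyF hFd using h
  obtain ⟨s, hs, hcov⟩ := TopologicalSpace.countable_cover_nhds (f := F)
    fun y => (hF y).isOpen.mem_nhds (hyF y)
  by_cases hY : s.Nonempty
  swap
  · rw [not_nonempty_iff_eq_empty] at hY
    subst hY
    simp only [mem_empty_iff_false, iUnion_of_empty, iUnion_empty] at hcov
    refine ⟨∅, isClopen_empty, ?_, disjoint_bot_left⟩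
    intro y _
    have : y ∈ (univ : Set Y) := mem_univ y
    rw [← hcov] at this
    exact this
  obtain ⟨e, he⟩ := hs.exists_eq_range hY
  have hex : ∀ y : Y, ∃ n : ℕ, y ∈ F (e n) := by
    intro y
    have : y ∈ (univ : Set Y) := mem_univ y
    rw [← hcov, mem_iUnion₂] at this
    obtain ⟨z, hz, hyz⟩ := this
    rw [he] at hz
    obtain ⟨n, rfl⟩ := hz
    exact ⟨n, hyz⟩
  let N : Y → ℕ := fun y => Nat.find (hex y)
  have hN : Continuous N := by
    rw [continuous_discrete_rng]
    intro n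
    have : N ⁻¹' {n} = F (e n) \ ⋃ k ∈ Finset.range n, F (e k) := by
      ext y
      simp only [mem_preimage, mem_singleton_iff, mem_sdiff, mem_iUnion, Finset.mem_range,
        exists_prop, not_exists, not_and]
      exact Nat.find_eq_iff (hex y)
    rw [this]
    refine IsClopen.isOpen ((hF _).diff ?_)
    exact isClopen_biUnion_finset fun k _ => hF _
  let D : ℕ → Set Y := fun n => N ⁻¹' {n}
  have hD : ∀ n, D n ⊆ F (e n) := by
    intro n y hy
    have h1 : N y = n := hy
    have h2 := Nat.find_spec (hex y)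
    have h3 : y ∈ F (e (N y)) := h2
    rwa [h1] at h3
  refine ⟨N ⁻¹' {n | Disjoint (D n) W}, (isClopen_discrete _).preimage hN, ?_, ?_⟩
  · intro y hy
    have hyD : y ∈ D (N y) := rfl
    rcases hFd (e (N y)) with h1 | h1
    · exact ((Set.disjoint_left.1 h1) (hD _ hyD) hy).elim
    · exact h1.mono_left (hD _)
  · rw [Set.disjoint_left]
    intro y hy hyW
    have h1 : Disjoint (D (N y)) W := hy
    exact Set.disjoint_left.1 h1 rfl hyW

/-- **A separable metric space with a basis of closed sets, any two disjoint members of which can be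
separated by a countable set, has dimension at most one.** -/
theorem result (X : Type) [MetricSpace X] [SeparableSpace X] (𝓑 : Set (Set X))
    (h𝓑 : ClosedBasis 𝓑)
    (hX : ∀ U ∈ 𝓑, ∀ W ∈ 𝓑, Disjoint U W → ∃ C : Set X, C.Countable ∧ SeparatedOff C U W) :
    DimLeOne X := by
  classical
  have : SecondCountableTopology X := UniformSpace.secondCountable_of_separable X
  obtain ⟨𝒱, h𝒱𝓑, h𝒱c, h𝒱, hbase⟩ := exists_countable_base h𝓑
  have hX' : ∀ q : Set X × Set X, ∃ C : Set X, C.Countable ∧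
      (q.1 ∈ 𝒱 → q.2 ∈ 𝒱 → Disjoint q.1 q.2 → SeparatedOff C q.1 q.2) := by
    intro q
    by_cases h : q.1 ∈ 𝒱 ∧ q.2 ∈ 𝒱 ∧ Disjoint q.1 q.2
    · obtain ⟨C, hC, hC'⟩ := hX q.1 (h𝒱𝓑 h.1) q.2 (h𝒱𝓑 h.2.1) h.2.2
      exact ⟨C, hC, fun _ _ _ => hC'⟩
    · exact ⟨∅, countable_empty, fun h1 h2 h3 => (h ⟨h1, h2, h3⟩).elim⟩
  choose K hK hKs using hX'
  set C : Set X := ⋃ q ∈ 𝒱 ×ˢ 𝒱, K q with hCdef
  have hC : C.Countable := (h𝒱c.prod h𝒱c).biUnion fun q _ => hK q
  -- a point off a member has a clopen neighbourhood in `X ∖ C` missing this member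
  have key : ∀ (y : ↥(Cᶜ : Set X)) (V : Set X), V ∈ 𝒱 → (y : X) ∉ V →
      ∃ F : Set ↥(Cᶜ : Set X), IsClopen F ∧ y ∈ F ∧
        Disjoint F ((↑) ⁻¹' V : Set ↥(Cᶜ : Set X)) := by
    intro y V hV hy
    obtain ⟨W, hW, hWV, hyW⟩ := hbase (y : X) Vᶜ ((h𝒱 V hV).isOpen_compl.mem_nhds hy)
    have hd : Disjoint W V := by
      rw [Set.disjoint_left]
      intro z hz hz'
      exact hWV hz hz'
    obtain ⟨F, hF, hF1, hF2⟩ := hKs (W, V) hW hV hd
    have hsub : ∀ z : X, z ∈ (Cᶜ : Set X) → z ∈ ((K (W, V))ᶜ : Set X) := by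
      intro z hz hz'
      exact hz (mem_biUnion (show (W, V) ∈ 𝒱 ×ˢ 𝒱 from ⟨hW, hV⟩) hz')
    have hι : Continuous (Set.inclusion (hsub : (Cᶜ : Set X) ⊆ ((K (W, V))ᶜ : Set X))) :=
      continuous_inclusion _
    refine ⟨Set.inclusion (hsub : (Cᶜ : Set X) ⊆ ((K (W, V))ᶜ : Set X)) ⁻¹' F, hF.preimage hι,
      ?_, ?_⟩
    · exact hF1 _ (interior_subset hyW)
    · rw [Set.disjoint_left]
      intro z hz hz'
      exact hF2 _ hz hz'
  intro x V hV hxV
  refine Pool.Agent.W651.HI.final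
    (Pool.Agent.W651.HI.main Pool.Agent.W374.HI.Size.main Pool.Agent.W374.HI.Lim.main
      Pool.Agent.W160.HI.Bump.main)
    (Pool.Agent.W240.HI.main Pool.Agent.W160.HI.Crook.main) Pool.Agent.W837.HIEmb.main
    X C hC ?_ x V hV hxV
  refine ⟨{U | ∃ V ∈ 𝒱, U = (↑) ⁻¹' V}, ?_, ?_, ?_⟩
  · rintro U ⟨V, hV, rfl⟩
    exact (h𝒱 V hV).preimage continuous_subtype_val
  · intro p S hS
    rw [mem_nhds_subtype] at hS
    obtain ⟨T, hT, hTS⟩ := hS
    obtain ⟨V, hV, hVT, hpV⟩ := hbase (p : X) T hT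
    refine ⟨(↑) ⁻¹' V, ⟨V, hV, rfl⟩, ?_, ?_⟩
    · intro z hz
      exact hTS (hVT hz)
    · have h1 : IsOpen {z : ↥(Cᶜ : Set X) | (z : X) ∈ interior V} :=
        isOpen_interior.preimage continuous_subtype_val
      have h2 : {z : ↥(Cᶜ : Set X) | (z : X) ∈ interior V} ⊆
          ((↑) ⁻¹' V : Set ↥(Cᶜ : Set X)) := by
        intro z hz
        have hz' : (z : X) ∈ interior V := hz
        exact (interior_subset : interior V ⊆ V) hz'
      exact interior_maximal h2 h1 hpV
  · rintro U ⟨V₁, hV₁, rfl⟩ W ⟨V₂, hV₂, rfl⟩ hd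
    apply separate
    intro y
    by_cases hy : (y : X) ∈ V₁
    · have hy2 : (y : X) ∉ V₂ := fun h => Set.disjoint_left.1 hd hy h
      obtain ⟨F, hF, hyF, hFd⟩ := key y V₂ hV₂ hy2
      exact ⟨F, hF, hyF, Or.inr hFd⟩
    · obtain ⟨F, hF, hyF, hFd⟩ := key y V₁ hV₁ hy
      exact ⟨F, hF, hyF, Or.inl hFd⟩

end Pool.Agent.Results.MP_a1dcbe_gt.CountableSeparators
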